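import Pool.Agent.Helper88.Ric.Stmts

/-!
Module CHI of MP_092777_ag: `g = η⁶` and its character.
-/

set_option autoImplicit false

open scoped ContDiff Manifold Topology MatrixGroups LinearAlgebra.Projectivization
open Complex

noncomputable section

namespace RicP

lemma chi_jj_ne (γ : SL(2, ℤ)) (τ : ℂ) (h : 0 < τ.im) : jj γ τ ≠ 0 := by
  unfold jj
  intro h0
  have hdet := γ.det_coe
  rw [Matrix.det_fin_two] at hdet
  have him := congrArg Complex.im h0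
  simp at him
  have hc : γ 1 0 = 0 := by
    rcases him with h1 | h1
    · exact_mod_cast h1
    · exact absurd h1 h.ne'
  rw [hc] at h0
  simp at h0
  have hd : γ 1 1 = 0 := by exact_mod_cast h0
  rw [hc, hd] at hdet
  simp at hdet

lemma chi_mob_im (γ : SL(2, ℤ)) (τ : ℂ) (h : 0 < τ.im) : 0 < (mob γ τ).im := by
  have h1 := (γ • (⟨τ, h⟩ : UpperHalfPlane)).im_pos
  have h2 : ((γ • (⟨τ, h⟩ : UpperHalfPlane) : UpperHalfPlane) : ℂ) = mob γ τ := by
    rw [UpperHalfPlane.coe_specialLinearGroup_apply]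
    simp [mob]
  rw [← h2]
  exact h1

lemma chi_mob_mul (γ γ' : SL(2, ℤ)) (τ : ℂ) (h : 0 < τ.im) :
    mob (γ * γ') τ = mob γ (mob γ' τ) ∧ jj (γ * γ') τ = jj γ (mob γ' τ) * jj γ' τ := by
  have hj := chi_jj_ne γ' τ h
  have hj2 := chi_jj_ne γ (mob γ' τ) (chi_mob_im γ' τ h)
  have hm : mob γ' τ * jj γ' τ = ((γ' 0 0 : ℤ) : ℂ) * τ + ((γ' 0 1 : ℤ) : ℂ) := by
    unfold mob
    unfold jj at hj ⊢
    rw [div_mul_cancel₀ _ hj]
  have e2 : jj (γ * γ') τ = jj γ (mob γ' τ) * jj γ' τ := by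
    have : jj γ (mob γ' τ) * jj γ' τ = ((γ 1 0 : ℤ) : ℂ) * (mob γ' τ * jj γ' τ) + ((γ 1 1 : ℤ) : ℂ) * jj γ' τ := by
      unfold jj; ring
    rw [this, hm]
    unfold jj
    simp only [Matrix.SpecialLinearGroup.coe_mul, Matrix.mul_apply, Fin.sum_univ_two]
    push_cast
    ring
  refine ⟨?_, e2⟩
  have e3 : mob γ (mob γ' τ) * (jj γ (mob γ' τ) * jj γ' τ)
      = ((γ 0 0 : ℤ) : ℂ) * (mob γ' τ * jj γ' τ) + ((γ 0 1 : ℤ) : ℂ) * jj γ' τ := by
    have : mob γ (mob γ' τ) * jj γ (mob γ' τ) = ((γ 0 0 : ℤ) : ℂ) * mob γ' τ + ((γ 0 1 : ℤ) : ℂ) := by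
      conv_lhs => rw [mob]
      unfold jj at hj2 ⊢
      rw [div_mul_cancel₀ _ hj2]
    rw [← mul_assoc, this]; ring
  have e4 : mob (γ * γ') τ * jj (γ * γ') τ
      = ((γ 0 0 : ℤ) : ℂ) * (mob γ' τ * jj γ' τ) + ((γ 0 1 : ℤ) : ℂ) * jj γ' τ := by
    rw [hm]
    have hj3 := chi_jj_ne (γ * γ') τ h
    have : mob (γ * γ') τ * jj (γ * γ') τ = (((γ * γ') 0 0 : ℤ) : ℂ) * τ + (((γ * γ') 0 1 : ℤ) : ℂ) := by
      unfold mob
      unfold jj at hj3 ⊢
      rw [div_mul_cancel₀ _ hj3]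
    rw [this]
    unfold jj
    simp only [Matrix.SpecialLinearGroup.coe_mul, Matrix.mul_apply, Fin.sum_univ_two]
    push_cast
    ring
  have hne : jj γ (mob γ' τ) * jj γ' τ ≠ 0 := mul_ne_zero hj2 hj
  rw [e2] at e4
  exact mul_right_cancel₀ hne (e4.trans e3.symm)

/-- `η⁶` -/
def chi_g (τ : ℂ) : ℂ := ModularForm.eta τ ^ 6

lemma chi_g_T (τ : ℂ) : chi_g (τ + 1) = I * chi_g τ := by
  unfold chi_g ModularForm.eta
  have h1 : ∀ n : ℕ, ModularForm.eta_q n (τ + 1) = ModularForm.eta_q n τ := by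
    intro n
    simp only [ModularForm.eta_q_eq_pow]
    congr 1
    rw [show 2 * (Real.pi : ℂ) * I * (τ + 1) = 2 * Real.pi * I * τ + 2 * Real.pi * I by ring]
    exact Complex.exp_periodic _
  simp_rw [h1]
  rw [mul_pow, mul_pow, ← mul_assoc]
  congr 1
  simp only [Function.Periodic.qParam]
  rw [← Complex.exp_nat_mul, ← Complex.exp_nat_mul]
  have : cexp ((6 : ℕ) * (2 * Real.pi * I * (τ + 1) / (24 : ℝ))) =
      cexp (Real.pi / 2 * I) * cexp ((6 : ℕ) * (2 * Real.pi * I * τ / (24 : ℝ))) := by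
    rw [← Complex.exp_add]
    congr 1
    push_cast
    ring
  rw [this, Complex.exp_pi_div_two_mul_I]

lemma chi_g_S (τ : ℂ) (h : 0 < τ.im) : chi_g (-1 / τ) = I * τ ^ 3 * chi_g τ := by
  unfold chi_g
  have h0 : τ ≠ 0 := by
    rintro rfl
    simp at h
  have he : ModularForm.eta (-1 / τ) = (sqrt I)⁻¹ * (sqrt τ * ModularForm.eta τ) := by
    simpa using ModularForm.eta_comp_eq_csqrt_I_inv (x := τ) h
  have hs : ∀ z : ℂ, z ≠ 0 → sqrt z ^ 6 = z ^ 3 := by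
    intro z hz
    rw [sqrt_eq_exp hz, ← exp_nat_mul]
    rw [show ((6 : ℕ) : ℂ) * (log z / 2) = (3 : ℕ) * log z by push_cast; ring, exp_nat_mul, exp_log hz]
  rw [he, mul_pow, mul_pow, inv_pow, hs I I_ne_zero, hs τ h0]
  have : (I ^ 3)⁻¹ = I := by
    rw [Complex.I_pow_three, inv_neg, Complex.inv_I, neg_neg]
  rw [this]
  ring

lemma chi_ex (γ : SL(2, ℤ)) : ∃ c : ℂˣ, c ^ 4 = 1 ∧ ∀ τ : ℂ, 0 < τ.im →
    chi_g (mob γ τ) = c * jj γ τ ^ 3 * chi_g τ := by
  have : γ ∈ Subgroup.closure {ModularGroup.S, ModularGroup.T} := by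
    simp [SpecialLinearGroup.SL2Z_generators]
  induction this using Subgroup.closure_induction with
  | mem x hx =>
    rcases hx with rfl | rfl
    · refine ⟨⟨I, -I, by simp, by simp⟩, ?_, ?_⟩
      · ext; simp
      · intro τ h
        have : mob ModularGroup.S τ = -1 / τ := by
          unfold mob; simp [ModularGroup.S]
        have hj : jj ModularGroup.S τ = τ := by
          unfold jj; simp [ModularGroup.S]
        rw [this, hj, chi_g_S τ h]
    · refine ⟨⟨I, -I, by simp, by simp⟩, ?_, ?_⟩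
      · ext; simp
      · intro τ h
        have : mob ModularGroup.T τ = τ + 1 := by
          unfold mob; simp [ModularGroup.T]
        have hj : jj ModularGroup.T τ = 1 := by
          unfold jj; simp [ModularGroup.T]
        rw [this, hj, chi_g_T τ]
        simp
  | one =>
    refine ⟨1, by simp, ?_⟩
    intro τ h
    simp [mob, jj]
  | mul x y hx hy ihx ihy =>
    obtain ⟨c, hc, h1⟩ := ihx
    obtain ⟨d, hd, h2⟩ := ihy
    refine ⟨c * d, by rw [mul_pow, hc, hd, one_mul], ?_⟩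
    intro τ h
    obtain ⟨e1, e2⟩ := chi_mob_mul x y τ h
    rw [e1, e2, h1 _ (chi_mob_im y τ h), h2 τ h]
    push_cast
    ring
  | inv x hx ih =>
    obtain ⟨c, hc, h1⟩ := ih
    refine ⟨c⁻¹, by rw [inv_pow, hc, inv_one], ?_⟩
    intro τ h
    obtain ⟨e1, e2⟩ := chi_mob_mul x x⁻¹ τ h
    have hpos := chi_mob_im x⁻¹ τ h
    have h3 := h1 (mob x⁻¹ τ) hpos
    have m1 : mob (x * x⁻¹) τ = τ := by rw [mul_inv_cancel]; simp [mob]
    have j1 : jj (x * x⁻¹) τ = 1 := by rw [mul_inv_cancel]; simp [jj]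
    rw [← e1, m1] at h3
    rw [j1] at e2
    have hcc : ((c⁻¹ : ℂˣ) : ℂ) * c = 1 := by simp
    rw [h3]
    linear_combination (-chi_g (mob x⁻¹ τ)) * hcc
      + (((c⁻¹ : ℂˣ) : ℂ) * c * chi_g (mob x⁻¹ τ)) * (1 + jj x (mob x⁻¹ τ) * jj x⁻¹ τ
        + (jj x (mob x⁻¹ τ) * jj x⁻¹ τ) ^ 2) * e2

lemma chi_g_ne (τ : ℂ) (h : 0 < τ.im) : chi_g τ ≠ 0 :=
  pow_ne_zero _ (ModularForm.eta_ne_zero h)

lemma chi_uniq (γ : SL(2, ℤ)) (c d : ℂˣ)
    (hc : ∀ τ : ℂ, 0 < τ.im → chi_g (mob γ τ) = c * jj γ τ ^ 3 * chi_g τ)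
    (hd : ∀ τ : ℂ, 0 < τ.im → chi_g (mob γ τ) = d * jj γ τ ^ 3 * chi_g τ) : c = d := by
  have hI : 0 < I.im := by simp
  have h := (hc I hI).symm.trans (hd I hI)
  have h1 := chi_g_ne I hI
  have h2 := chi_jj_ne γ I hI
  have h3 : ((c : ℂ)) * (jj γ I ^ 3 * chi_g I) = d * (jj γ I ^ 3 * chi_g I) := by
    linear_combination h
  exact Units.ext (mul_right_cancel₀ (mul_ne_zero (pow_ne_zero _ h2) h1) h3)

/-- the character of `η⁶` -/
def chi_hom : SL(2, ℤ) →* ℂˣ :=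
  MonoidHom.mk' (fun γ => (chi_ex γ).choose) (by
    intro x y
    refine chi_uniq (x * y) _ _ (chi_ex (x * y)).choose_spec.2 ?_
    intro τ h
    obtain ⟨e1, e2⟩ := chi_mob_mul x y τ h
    rw [e1, e2, (chi_ex x).choose_spec.2 _ (chi_mob_im y τ h), (chi_ex y).choose_spec.2 τ h]
    push_cast
    ring)

lemma chi_decay : ∃ C : ℝ, ∀ τ : ℂ, 1 / 2 ≤ τ.im → ‖chi_g τ‖ ≤ C * Real.exp (-(3 / 2) * τ.im) := by
  have hcont : ContinuousOn (fun q : ℂ => ∏' n : ℕ, (1 - q ^ (n + 1))) (Metric.closedBall (0 : ℂ) (Real.exp (-1))) := by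
    refine ModularForm.differentiableOn_tprod_one_sub_pow.continuousOn.mono ?_
    intro q hq
    rw [mem_closedBall_zero_iff] at hq
    rw [mem_ball_zero_iff]
    refine lt_of_le_of_lt hq ?_
    rw [Real.exp_lt_one_iff]
    norm_num
  obtain ⟨C, hC⟩ := (isCompact_closedBall (0 : ℂ) (Real.exp (-1))).exists_bound_of_continuousOn hcont
  refine ⟨C ^ 6, ?_⟩
  intro τ hτ
  have hpi := Real.pi_gt_three
  have hq : ‖cexp (2 * Real.pi * I * τ)‖ ≤ Real.exp (-1) := by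
    rw [Complex.norm_exp]
    have : (2 * (Real.pi : ℂ) * I * τ).re = -(2 * Real.pi * τ.im) := by
      simp [Complex.mul_re, Complex.mul_im]
    rw [this]
    apply Real.exp_le_exp.mpr
    nlinarith
  have h1 : chi_g τ = (Function.Periodic.qParam 24 τ) ^ 6 * (∏' n : ℕ, (1 - cexp (2 * Real.pi * I * τ) ^ (n + 1))) ^ 6 := by
    unfold chi_g ModularForm.eta
    simp_rw [ModularForm.eta_q_eq_pow]
    rw [mul_pow]
  have h2 : ‖(Function.Periodic.qParam 24 τ) ^ 6‖ ≤ Real.exp (-(3 / 2) * τ.im) := by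
    rw [norm_pow, Function.Periodic.qParam, Complex.norm_exp, ← Real.exp_nat_mul]
    apply Real.exp_le_exp.mpr
    have : (2 * (Real.pi : ℂ) * I * τ / (24 : ℝ)).re = -(2 * Real.pi * τ.im) / 24 := by
      rw [Complex.div_ofReal_re]
      simp [Complex.mul_re, Complex.mul_im]
    rw [this]
    push_cast
    nlinarith
  have h3 : ‖(∏' n : ℕ, (1 - cexp (2 * Real.pi * I * τ) ^ (n + 1))) ^ 6‖ ≤ C ^ 6 := by
    rw [norm_pow]
    exact pow_le_pow_left₀ (norm_nonneg _) (hC _ (by rwa [mem_closedBall_zero_iff])) 6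
  rw [h1, norm_mul, mul_comm (C ^ 6)]
  exact mul_le_mul h2 h3 (norm_nonneg _) (Real.exp_pos _).le

theorem st_CHI : ST_CHI := by
  refine ⟨chi_hom, chi_g, ?_, ?_, ?_, ?_, chi_decay⟩
  · intro γ
    exact (chi_ex γ).choose_spec.1
  · have h : ∀ τ : ℂ, 0 < τ.im → chi_g (mob ModularGroup.T τ)
        = ((⟨I, -I, by simp, by simp⟩ : ℂˣ) : ℂ) * jj ModularGroup.T τ ^ 3 * chi_g τ := by
      intro τ h
      have : mob ModularGroup.T τ = τ + 1 := by
        unfold mob; simp [ModularGroup.T]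
      have hj : jj ModularGroup.T τ = 1 := by
        unfold jj; simp [ModularGroup.T]
      rw [this, hj, chi_g_T τ]
      simp
    have := chi_uniq ModularGroup.T _ _ (chi_ex ModularGroup.T).choose_spec.2 h
    show (((chi_ex ModularGroup.T).choose : ℂˣ) : ℂ) = I
    rw [this]
  · intro τ h
    exact ⟨(ModularForm.differentiableAt_eta_of_mem_upperHalfPlaneSet h).pow 6, chi_g_ne τ h⟩
  · intro γ τ h
    exact (chi_ex γ).choose_spec.2 τ h

end RicP
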