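import Pool.Agent.Helper88.Ric.Stmts

/-!
Module FPHI of MP_092777_ag: comparison of `potD` with `FU + FD` (theta functional equation).
-/

set_option autoImplicit false

open scoped ContDiff Manifold Topology MatrixGroups LinearAlgebra.Projectivization
open Complex

noncomputable section

namespace RicP

lemma fphi_summable (a L s : ℝ) (ha : 0 < a) (hL : 0 < L) :
    Summable (fun m : ℤ => Real.exp (a * (m * s - L * (m : ℝ) ^ 2 / 2))) := by
  have h := (summable_jacobiTheta₂_term_iff (-I * a * s / (2 * Real.pi)) (I * (a * L / (2 * Real.pi)))).mpr (by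
    have : (I * ((a : ℂ) * L / (2 * Real.pi))) = I * ((a * L / (2 * Real.pi) : ℝ) : ℂ) := by
      push_cast; ring
    rw [this]
    simp only [Complex.mul_im, Complex.I_re, Complex.I_im, Complex.ofReal_re, Complex.ofReal_im]
    have : 0 < a * L / (2 * Real.pi) := by positivity
    linarith)
  rw [← Complex.summable_ofReal]
  refine h.congr ?_
  intro n
  unfold jacobiTheta₂_term
  have hpi : (Real.pi : ℂ) ≠ 0 := by exact_mod_cast Real.pi_ne_zero
  rw [Complex.ofReal_exp]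
  congr 1
  push_cast
  field_simp
  ring_nf
  simp only [Complex.I_sq]
  ring

lemma fphi_poisson (k : ℕ) (L T : ℝ) (hk : 0 < k) (hL : 0 < L) :
    ∑' m : ℤ, Real.exp (k * (m * (T - L / 2) - L * (m : ℝ) ^ 2 / 2)) =
      Real.exp (k * (T - L / 2) ^ 2 / (2 * L)) * (Real.sqrt (2 * Real.pi / (k * L)) * thd k (L, T)) := by
  have hk' : (0 : ℝ) < k := by exact_mod_cast hk
  have hpi := Real.pi_pos
  set A : ℝ := k * L / (2 * Real.pi) with hA
  have hApos : 0 < A := by positivity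
  set b : ℝ := k * (T - L / 2) / (2 * Real.pi) with hb
  have h := Complex.tsum_exp_neg_quadratic (a := (A : ℂ)) (by simpa using hApos) (b : ℂ)
  have hl : ∀ n : ℤ, cexp (-Real.pi * A * n ^ 2 + 2 * Real.pi * b * n)
      = ((Real.exp (k * (n * (T - L / 2) - L * (n : ℝ) ^ 2 / 2)) : ℝ) : ℂ) := by
    intro n
    rw [Complex.ofReal_exp]
    congr 1
    have : (-(Real.pi : ℂ) * A * n ^ 2 + 2 * Real.pi * b * n)
        = ((-Real.pi * A * n ^ 2 + 2 * Real.pi * b * n : ℝ) : ℂ) := by push_cast; ring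
    rw [this]
    congr 1
    rw [hA, hb]
    field_simp
    ring
  have hr : ∀ n : ℤ, cexp (-Real.pi / A * (n + I * b) ^ 2)
      = ((Real.exp (k * (T - L / 2) ^ 2 / (2 * L)) : ℝ) : ℂ) *
        (((Real.exp (-(2 * Real.pi ^ 2 * (n : ℝ) ^ 2) / (k * L)) : ℝ) : ℂ) *
          cexp (((-(2 * Real.pi * n * (T / L - 1 / 2)) : ℝ) : ℂ) * I)) := by
    intro n
    rw [Complex.ofReal_exp, Complex.ofReal_exp, ← Complex.exp_add, ← Complex.exp_add]
    congr 1
    have hAc : (A : ℂ) ≠ 0 := by exact_mod_cast hApos.ne'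
    have hLc : (L : ℂ) ≠ 0 := by exact_mod_cast hL.ne'
    have hkc : (k : ℂ) ≠ 0 := by exact_mod_cast hk.ne'
    have hpc : (Real.pi : ℂ) ≠ 0 := by exact_mod_cast hpi.ne'
    rw [hA, hb]
    push_cast
    field_simp
    ring_nf
    simp only [Complex.I_sq]
    ring
  have hre : ∀ n : ℤ, (cexp (((-(2 * Real.pi * n * (T / L - 1 / 2)) : ℝ) : ℂ) * I)).re
      = Real.cos (2 * Real.pi * n * (T / L - 1 / 2)) := by
    intro n
    rw [Complex.exp_ofReal_mul_I_re, Real.cos_neg]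
  have hsum : Summable (fun n : ℤ => ((Real.exp (-(2 * Real.pi ^ 2 * (n : ℝ) ^ 2) / (k * L)) : ℝ) : ℂ) *
          cexp (((-(2 * Real.pi * n * (T / L - 1 / 2)) : ℝ) : ℂ) * I)) := by
    have h2 := (summable_jacobiTheta₂_term_iff ((-(T / L - 1 / 2) : ℝ) : ℂ)
      (I * ((2 * Real.pi / (k * L) : ℝ) : ℂ))).mpr (by
        simp only [Complex.mul_im, Complex.I_re, Complex.I_im, Complex.ofReal_re, Complex.ofReal_im]
        have : 0 < 2 * Real.pi / (k * L) := by positivity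
        linarith)
    refine h2.congr ?_
    intro n
    unfold jacobiTheta₂_term
    rw [Complex.ofReal_exp, ← Complex.exp_add]
    congr 1
    have hLc : (L : ℂ) ≠ 0 := by exact_mod_cast hL.ne'
    have hkc : (k : ℂ) ≠ 0 := by exact_mod_cast hk.ne'
    push_cast
    field_simp
    ring_nf
    simp only [Complex.I_sq]
    ring
  simp_rw [hl, hr] at h
  rw [tsum_mul_left, ← Complex.ofReal_tsum] at h
  have hpow : (1 / (A : ℂ) ^ (1 / 2 : ℂ)) = ((Real.sqrt (2 * Real.pi / (k * L)) : ℝ) : ℂ) := by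
    have : (A : ℂ) ^ (1 / 2 : ℂ) = ((Real.sqrt A : ℝ) : ℂ) := by
      rw [Real.sqrt_eq_rpow, Complex.ofReal_cpow hApos.le]
      norm_num
    rw [this, ← Complex.ofReal_one, ← Complex.ofReal_div]
    congr 1
    rw [one_div, ← Real.sqrt_inv, hA, inv_div]
  rw [hpow] at h
  have h3 := congrArg Complex.re h
  rw [Complex.ofReal_re, Complex.re_ofReal_mul, Complex.re_ofReal_mul, Complex.re_tsum hsum] at h3
  rw [h3]
  have : ∀ n : ℤ, (((Real.exp (-(2 * Real.pi ^ 2 * (n : ℝ) ^ 2) / (k * L)) : ℝ) : ℂ) *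
          cexp (((-(2 * Real.pi * n * (T / L - 1 / 2)) : ℝ) : ℂ) * I)).re
      = Real.exp (-(2 * Real.pi ^ 2 * (n : ℝ) ^ 2) / (k * L)) * Real.cos (2 * Real.pi * n * (T / L - 1 / 2)) := by
    intro n
    rw [Complex.re_ofReal_mul, hre]
  simp_rw [this]
  unfold thd
  ring

lemma fphi_term (a k : ℕ) (p : E) (h1 : p.1 ≠ 0) (h2 : p.2 ≠ 0) (L T : ℝ)
    (hL : L = -2 * Real.log ‖p.1 * p.2‖) (hT : T = -2 * Real.log ‖p.2‖ + k * L) (n : ℤ) :
    ‖p.1‖ ^ (a * (n * (n + 1)).toNat) * ‖p.2‖ ^ (a * (n * (n - 1)).toNat) =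
      Real.exp (a * (n * (T - k * L) - L * (n * (n + 1)) / 2)) := by
  have hx : 0 < ‖p.1‖ := norm_pos_iff.mpr h1
  have hy : 0 < ‖p.2‖ := norm_pos_iff.mpr h2
  have e1 : (0 : ℤ) ≤ n * (n + 1) := by
    rcases le_or_gt 0 n with h | h
    · positivity
    · nlinarith
  have e2 : (0 : ℤ) ≤ n * (n - 1) := by
    rcases le_or_gt 1 n with h | h
    · nlinarith
    · nlinarith
  have c1 : (((n * (n + 1)).toNat : ℕ) : ℝ) = (n : ℝ) * (n + 1) := by
    have : (((n * (n + 1)).toNat : ℕ) : ℤ) = n * (n + 1) := Int.toNat_of_nonneg e1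
    exact_mod_cast this
  have c2 : (((n * (n - 1)).toNat : ℕ) : ℝ) = (n : ℝ) * (n - 1) := by
    have : (((n * (n - 1)).toNat : ℕ) : ℤ) = n * (n - 1) := Int.toNat_of_nonneg e2
    exact_mod_cast this
  rw [norm_mul, Real.log_mul hx.ne' hy.ne'] at hL
  have l1 : Real.log ‖p.2‖ = -(T - k * L) / 2 := by linarith
  have l2 : Real.log ‖p.1‖ = -L / 2 + (T - k * L) / 2 := by linarith
  rw [← Real.rpow_natCast, ← Real.rpow_natCast, Real.rpow_def_of_pos hx, Real.rpow_def_of_pos hy,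
    ← Real.exp_add, l1, l2]
  congr 1
  push_cast
  rw [c1, c2]
  ring

lemma fphi_Zk (a k : ℕ) (p : E) (h1 : p.1 ≠ 0) (h2 : p.2 ≠ 0) (L T : ℝ)
    (hL : L = -2 * Real.log ‖p.1 * p.2‖) (hT : T = -2 * Real.log ‖p.2‖ + k * L) :
    Zk a p = Real.exp (-(a * (k * T - L * k * (k + 1) / 2))) *
      ∑' m : ℤ, Real.exp (a * (m * (T - L / 2) - L * (m : ℝ) ^ 2 / 2)) := by
  unfold Zk
  simp_rw [fphi_term a k p h1 h2 L T hL hT]
  rw [← (Equiv.subRight (k : ℤ)).tsum_eq, ← tsum_mul_left]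
  refine tsum_congr fun m => ?_
  rw [← Real.exp_add]
  congr 1
  simp only [Equiv.subRight_apply]
  push_cast
  ring

lemma fphi_log (a k : ℕ) (ha : 0 < a) (p : E) (h1 : p.1 ≠ 0) (h2 : p.2 ≠ 0) (L T : ℝ) (hL0 : 0 < L)
    (hL : L = -2 * Real.log ‖p.1 * p.2‖) (hT : T = -2 * Real.log ‖p.2‖ + k * L) :
    Real.log (Zk a p) = -(a * (k * T - L * k * (k + 1) / 2)) + a * (T - L / 2) ^ 2 / (2 * L)
      + (Real.log (2 * Real.pi / a) - Real.log L) / 2 + Real.log (thd a (L, T)) := by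
  have ha' : (0 : ℝ) < a := by exact_mod_cast ha
  have hpi := Real.pi_pos
  have hpos : 0 < ∑' m : ℤ, Real.exp (a * (m * (T - L / 2) - L * (m : ℝ) ^ 2 / 2)) :=
    (fphi_summable a L (T - L / 2) ha' hL0).tsum_pos (fun m => (Real.exp_pos _).le) 0 (Real.exp_pos _)
  have hP := fphi_poisson a L T ha hL0
  have hs : 0 < Real.sqrt (2 * Real.pi / (a * L)) := Real.sqrt_pos.mpr (by positivity)
  have hth : 0 < thd a (L, T) := by
    rw [hP] at hpos
    have h3 : 0 < Real.exp (a * (T - L / 2) ^ 2 / (2 * L)) * Real.sqrt (2 * Real.pi / (a * L)) :=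
      mul_pos (Real.exp_pos _) hs
    rw [← mul_assoc] at hpos
    exact (pos_iff_pos_of_mul_pos hpos).mp h3
  rw [fphi_Zk a k p h1 h2 L T hL hT, hP, Real.log_mul (Real.exp_pos _).ne' (by positivity),
    Real.log_mul (Real.exp_pos _).ne' (by positivity), Real.log_mul hs.ne' hth.ne', Real.log_exp,
    Real.log_exp, Real.log_sqrt (by positivity)]
  have : 2 * Real.pi / (a * L) = (2 * Real.pi / a) / L := by field_simp
  rw [this, Real.log_div (by positivity) hL0.ne']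
  ring

lemma fphi_base (j : ℕ) (hj : 0 < j) (L : ℝ) (hL0 : 0 < L) (T : ℝ) :
    Real.log (1 - Real.exp (-(j * L))) = shb j (L, T) + Real.log j + Real.log L - j * L / 2 := by
  have hj' : (0 : ℝ) < j := by exact_mod_cast hj
  set z : ℝ := j * L / 2 with hz
  have hz0 : 0 < z := by positivity
  have hsh : 0 < Real.sinh z := Real.sinh_pos_iff.mpr hz0
  have e : 1 - Real.exp (-(j * L)) = (Real.sinh z / z) * (j * L) * Real.exp (-z) := by
    have hjl : (j : ℝ) * L = 2 * z := by rw [hz]; ring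
    rw [hjl, Real.sinh_eq]
    have h1 : Real.exp (-(2 * z)) = Real.exp (-z) * Real.exp (-z) := by
      rw [← Real.exp_add]; congr 1; ring
    have h2 : Real.exp z * Real.exp (-z) = 1 := by rw [← Real.exp_add]; simp
    rw [h1]
    field_simp
    linear_combination -h2
  rw [e, Real.log_mul (by positivity) (Real.exp_pos _).ne', Real.log_mul (by positivity) (by positivity),
    Real.log_exp, Real.log_mul hj'.ne' hL0.ne']
  unfold shb
  simp only
  rw [← hz]
  ring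

theorem st_FPHI : ST_FPHI := by
  intro k
  refine ⟨(4 * Real.log (2 * Real.pi / (1 : ℕ)) + 10 * Real.log (2 * Real.pi / (2 : ℕ))
      + 8 * Real.log (2 * Real.pi / (4 : ℕ))) / 2 - 5 * Real.log (1 : ℕ) - 7 * Real.log (4 : ℕ),
    28 * k * (k + 1) + 7 + 5 / 2 + 14, -56 * k - 28, ?_⟩
  intro p h1 h2 hlt L T hL hT
  have hxy : 0 < ‖p.1 * p.2‖ := norm_pos_iff.mpr (mul_ne_zero h1 h2)
  have hL0 : 0 < L := by
    have := Real.log_neg hxy hlt
    rw [hL]; linarith
  have z1 := fphi_log 1 k one_pos p h1 h2 L T hL0 hL hT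
  have z2 := fphi_log 2 k two_pos p h1 h2 L T hL0 hL hT
  have z4 := fphi_log 4 k four_pos p h1 h2 L T hL0 hL hT
  have hexp : ‖p.1 * p.2‖ = Real.exp (-L / 2) := by
    rw [hL, show -(-2 * Real.log ‖p.1 * p.2‖) / 2 = Real.log ‖p.1 * p.2‖ by ring, Real.exp_log hxy]
  have b1 := fphi_base 1 one_pos L hL0 T
  have b4 := fphi_base 4 four_pos L hL0 T
  have e2 : ‖p.1 * p.2‖ ^ 2 = Real.exp (-((1 : ℕ) * L)) := by
    rw [hexp, ← Real.exp_nat_mul]; congr 1; push_cast; ring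
  have e8 : ‖p.1 * p.2‖ ^ 8 = Real.exp (-((4 : ℕ) * L)) := by
    rw [hexp, ← Real.exp_nat_mul]; congr 1; push_cast; ring
  unfold potD FU FD
  rw [e2, e8, b1, b4, z1, z2, z4]
  simp only
  push_cast
  field_simp
  ring

end RicP
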